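import Mathlib

/-!
# Two ways of sampling a matching pair
-/

namespace Q296.Match

open scoped ENNReal

variable {C : Type*}

/-- `f₂ = ∑ p_j²`. -/
noncomputable def f2 (p : PMF C) : ℝ≥0∞ := ∑' j, p j ^ 2

/-- The law of `X`: `P(X = i) = p_i² / f₂`. -/
noncomputable def lawX (p : PMF C) (i : C) : ℝ≥0∞ := p i ^ 2 / f2 p

open scoped Classical in
/-- The law of `Y`: `P(Y = i) = p_i² ∑_J (|J| + 1)! ∏_{j ∈ J} p_j`, the sum over all finite
subsets `J` of `C` which do not contain `i`. -/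
noncomputable def lawY (p : PMF C) (i : C) : ℝ≥0∞ :=
  p i ^ 2 * ∑' J : Finset C,
    if i ∈ J then 0 else ((J.card + 1).factorial : ℝ≥0∞) * ∏ j ∈ J, p j

/-- The discrepancy `D(p) = (1/2) ∑_i |P(X = i) - P(Y = i)|`, where `|a - b|` is written
`(a - b) + (b - a)` with the truncated subtraction of `[0, ∞]`. -/
noncomputable def discrepancy (p : PMF C) : ℝ≥0∞ :=
  (∑' i, ((lawX p i - lawY p i) + (lawY p i - lawX p i))) / 2

end Q296.Match
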