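import Pool.Agent.Q296.Match.Defs

/-!
# The discrepancy is bounded away from one
-/

namespace Q296.Match

open scoped ENNReal NNReal
open Finset MeasureTheory

variable {C : Type*}

/-! ### The finite upper bound -/

/-- the functional `X^k ↦ k!` -/
noncomputable def L : Polynomial ℝ →ₗ[ℝ] ℝ :=
  Polynomial.lsum fun k => ((k.factorial : ℕ) : ℝ) • LinearMap.id

lemma L_monomial (k : ℕ) (a : ℝ) : L (Polynomial.monomial k a) = k.factorial * a := by
  simp [L, Polynomial.lsum_apply, Polynomial.sum_monomial_index]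

lemma L_sub_derivative (f : Polynomial ℝ) : L (f - Polynomial.derivative f) = f.coeff 0 := by
  induction f using Polynomial.induction_on' with
  | add p q hp hq =>
    rw [Polynomial.coeff_add, ← hp, ← hq, ← map_add]
    congr 1
    rw [Polynomial.derivative_add]; ring
  | monomial k a =>
    rw [map_sub, Polynomial.derivative_monomial, L_monomial, L_monomial]
    cases k with
    | zero => simp
    | succ k =>
      rw [Polynomial.coeff_monomial, Nat.factorial_succ]
      simp
      ring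

open scoped Classical in
lemma prod_poly (F : Finset C) (a : C → ℝ) :
    ∏ j ∈ F, (1 + Polynomial.C (a j) * Polynomial.X) =
      ∑ J ∈ F.powerset, Polynomial.monomial J.card (∏ j ∈ J, a j) := by
  rw [Finset.prod_one_add]
  refine Finset.sum_congr rfl fun J _ => ?_
  rw [Finset.prod_mul_distrib, Finset.prod_const, ← map_prod, Polynomial.C_mul_X_pow_eq_monomial]

open scoped Classical in
lemma finite_upper (F : Finset C) (a : C → ℝ) (ha : ∀ j, 0 ≤ a j) (hs : ∑ j ∈ F, a j ≤ 1) :
    ∑ i ∈ F, a i ^ 2 * ∑ J ∈ (F.erase i).powerset, ((J.card + 1).factorial : ℝ) * ∏ j ∈ J, a j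
      ≤ 1 := by
  set Φ : Finset C → Polynomial ℝ := fun F => ∏ j ∈ F, (1 + Polynomial.C (a j) * Polynomial.X)
    with hΦ
  have h1 : ∀ i, ∑ J ∈ (F.erase i).powerset, ((J.card + 1).factorial : ℝ) * ∏ j ∈ J, a j =
      L (Polynomial.X * Φ (F.erase i)) := by
    intro i
    simp only [hΦ]
    rw [prod_poly, Finset.mul_sum, map_sum]
    refine Finset.sum_congr rfl fun J _ => ?_
    rw [Polynomial.X_mul_monomial, L_monomial]
  simp only [h1]
  have h2 : ∑ i ∈ F, a i ^ 2 * L (Polynomial.X * Φ (F.erase i)) =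
      L ((∑ i ∈ F, Polynomial.C (a i)) * Φ F - Polynomial.derivative (Φ F)) := by
    have h3 : (∑ i ∈ F, Polynomial.C (a i)) * Φ F - Polynomial.derivative (Φ F) =
        ∑ i ∈ F, Polynomial.C (a i ^ 2) * (Polynomial.X * Φ (F.erase i)) := by
      have h4 : Polynomial.derivative (Φ F) = ∑ i ∈ F, Φ (F.erase i) * Polynomial.C (a i) := by
        simp only [hΦ]
        rw [Polynomial.derivative_prod_finset]
        refine Finset.sum_congr rfl fun i _ => ?_
        simp
      rw [h4, Finset.sum_mul, ← Finset.sum_sub_distrib]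
      refine Finset.sum_congr rfl fun i hi => ?_
      have h5 : Φ F = (1 + Polynomial.C (a i) * Polynomial.X) * Φ (F.erase i) := by
        simp only [hΦ]
        exact (Finset.mul_prod_erase F
          (fun j => 1 + Polynomial.C (a j) * Polynomial.X) hi).symm
      rw [h5, map_pow]
      ring
    rw [h3, map_sum]
    refine Finset.sum_congr rfl fun i _ => ?_
    rw [← Polynomial.smul_eq_C_mul, map_smul, smul_eq_mul]
  rw [h2]
  have h6 : L (Φ F) = ∑ J ∈ F.powerset, (J.card.factorial : ℝ) * ∏ j ∈ J, a j := by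
    simp only [hΦ]
    rw [prod_poly, map_sum]
    refine Finset.sum_congr rfl fun J _ => ?_
    rw [L_monomial]
  have h7 : 0 ≤ L (Φ F) := by
    rw [h6]
    exact Finset.sum_nonneg fun J _ => mul_nonneg (Nat.cast_nonneg _)
      (Finset.prod_nonneg fun j _ => ha j)
  have h8 : (∑ i ∈ F, Polynomial.C (a i)) * Φ F - Polynomial.derivative (Φ F) =
      (Φ F - Polynomial.derivative (Φ F)) - (1 - ∑ i ∈ F, a i) • Φ F := by
    rw [Polynomial.smul_eq_C_mul, map_sub, map_sum, map_one]
    ring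
  rw [h8, map_sub, L_sub_derivative, map_smul, smul_eq_mul]
  have h9 : (Φ F).coeff 0 = 1 := by
    simp [hΦ, Polynomial.coeff_zero_eq_eval_zero, Polynomial.eval_prod]
  rw [h9]
  nlinarith [mul_nonneg (sub_nonneg.2 hs) h7]

/-! ### The finite lower bound -/

lemma integrableOn_pow_exp (k : ℕ) :
    IntegrableOn (fun t : ℝ => t ^ k * Real.exp (-t)) (Set.Ioi 0) := by
  have h := Real.GammaIntegral_convergent (s := (k : ℝ) + 1) (by positivity)
  refine h.congr_fun ?_ measurableSet_Ioi
  intro t ht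
  simp only [add_sub_cancel_right]
  rw [Real.rpow_natCast]
  ring

lemma integral_pow_exp (k : ℕ) :
    ∫ t : ℝ in Set.Ioi 0, t ^ k * Real.exp (-t) = k.factorial := by
  rw [← Real.Gamma_nat_eq_factorial, Real.Gamma_eq_integral (by positivity)]
  refine setIntegral_congr_fun measurableSet_Ioi ?_
  intro t ht
  simp only [add_sub_cancel_right]
  rw [Real.rpow_natCast]
  ring

lemma one_add_ge {x : ℝ} (hx : 0 ≤ x) : Real.exp (x - x ^ 2 / 2) ≤ 1 + x := by
  have h := Real.le_log_one_add_of_nonneg hx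
  have h2 : x - x ^ 2 / 2 ≤ 2 * x / (x + 2) := by
    rw [le_div_iff₀ (by linarith)]
    nlinarith [pow_nonneg hx 3]
  calc Real.exp (x - x ^ 2 / 2) ≤ Real.exp (Real.log (1 + x)) :=
        Real.exp_le_exp.2 (h2.trans h)
    _ = 1 + x := Real.exp_log (by linarith)

open scoped Classical in
lemma finite_lower (F : Finset C) (a : C → ℝ) (ha : ∀ j, 0 ≤ a j) (s : ℝ)
    (hs2 : ∑ j ∈ F, a j ^ 2 ≤ s) (hs : 0 < s) (b : ℝ) (hb : 1 ≤ b + ∑ j ∈ F, a j) (hb0 : 0 ≤ b) :
    Real.exp (-(b / Real.sqrt s) - 1 / 2) / (2 * s) ≤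
      ∑ J ∈ F.powerset, ((J.card + 1).factorial : ℝ) * ∏ j ∈ J, a j := by
  have h1 : ∑ J ∈ F.powerset, ((J.card + 1).factorial : ℝ) * ∏ j ∈ J, a j =
      ∫ t : ℝ in Set.Ioi 0, t * Real.exp (-t) * ∏ j ∈ F, (1 + a j * t) := by
    have h2 : ∀ t : ℝ, t * Real.exp (-t) * ∏ j ∈ F, (1 + a j * t) =
        ∑ J ∈ F.powerset, (∏ j ∈ J, a j) * (t ^ (J.card + 1) * Real.exp (-t)) := by
      intro t
      rw [Finset.prod_one_add, Finset.mul_sum]
      refine Finset.sum_congr rfl fun J _ => ?_
      rw [Finset.prod_mul_distrib, Finset.prod_const]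
      ring
    simp only [h2]
    rw [integral_finsetSum]
    · refine Finset.sum_congr rfl fun J _ => ?_
      rw [integral_const_mul, integral_pow_exp]
      ring
    · intro J _
      exact (integrableOn_pow_exp (J.card + 1)).const_mul _
  rw [h1]
  have hint : IntegrableOn (fun t : ℝ => t * Real.exp (-t) * ∏ j ∈ F, (1 + a j * t))
      (Set.Ioi 0) := by
    have h2 : (fun t : ℝ => t * Real.exp (-t) * ∏ j ∈ F, (1 + a j * t)) =
        fun t => ∑ J ∈ F.powerset, (∏ j ∈ J, a j) * (t ^ (J.card + 1) * Real.exp (-t)) := by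
      funext t
      rw [Finset.prod_one_add, Finset.mul_sum]
      refine Finset.sum_congr rfl fun J _ => ?_
      rw [Finset.prod_mul_distrib, Finset.prod_const]
      ring
    rw [h2]
    exact integrable_finsetSum _ fun J _ => (integrableOn_pow_exp (J.card + 1)).const_mul _
  set T := 1 / Real.sqrt s with hT
  have hsq := Real.sqrt_pos.2 hs
  have hTpos : 0 < T := by positivity
  have hTs : T ^ 2 * s = 1 := by
    rw [hT, div_pow, Real.sq_sqrt hs.le]; field_simp
  have hsub : Set.Ioc 0 T ⊆ Set.Ioi (0 : ℝ) := fun t ht => ht.1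
  have h3 : ∫ t in Set.Ioc 0 T, t * Real.exp (-t) * ∏ j ∈ F, (1 + a j * t) ≤
      ∫ t : ℝ in Set.Ioi 0, t * Real.exp (-t) * ∏ j ∈ F, (1 + a j * t) := by
    refine setIntegral_mono_set hint ?_ (Filter.Eventually.of_forall hsub)
    refine (ae_restrict_mem measurableSet_Ioi).mono ?_
    intro t ht
    have ht' : (0 : ℝ) < t := ht
    refine mul_nonneg (mul_nonneg ht'.le (Real.exp_nonneg _)) (Finset.prod_nonneg fun j _ => ?_)
    have := mul_nonneg (ha j) ht'.le
    linarith
  refine le_trans ?_ h3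
  set K := Real.exp (-(b / Real.sqrt s) - 1 / 2) with hK
  have h4 : ∫ t in Set.Ioc 0 T, K * t = K / (2 * s) := by
    rw [integral_const_mul, ← intervalIntegral.integral_of_le hTpos.le, integral_id]
    have : T ^ 2 = 1 / s := by
      rw [eq_div_iff hs.ne']; exact hTs
    rw [this]
    field_simp
    ring
  rw [← h4]
  refine setIntegral_mono_on ?_ (hint.mono_set hsub) measurableSet_Ioc ?_
  · exact (continuous_const.mul continuous_id).integrableOn_Ioc
  · intro t ht
    have ht0 : 0 < t := ht.1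
    have htT : t ≤ T := ht.2
    have h5 : Real.exp (∑ j ∈ F, (a j * t - (a j * t) ^ 2 / 2)) ≤ ∏ j ∈ F, (1 + a j * t) := by
      rw [Real.exp_sum]
      exact Finset.prod_le_prod (fun j _ => (Real.exp_nonneg _))
        (fun j _ => one_add_ge (mul_nonneg (ha j) ht0.le))
    have h6 : K ≤ Real.exp (-t) * ∏ j ∈ F, (1 + a j * t) := by
      calc K ≤ Real.exp (-t + ∑ j ∈ F, (a j * t - (a j * t) ^ 2 / 2)) := by
            rw [hK]
            apply Real.exp_le_exp.2
            have h7 : ∑ j ∈ F, (a j * t - (a j * t) ^ 2 / 2) =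
                (∑ j ∈ F, a j) * t - (∑ j ∈ F, a j ^ 2) * t ^ 2 / 2 := by
              rw [Finset.sum_sub_distrib, Finset.sum_mul, ← Finset.sum_div, Finset.sum_mul]
              congr 2
              refine Finset.sum_congr rfl fun j _ => ?_
              ring
            rw [h7]
            have h8 : (∑ j ∈ F, a j ^ 2) * t ^ 2 ≤ 1 := by
              calc (∑ j ∈ F, a j ^ 2) * t ^ 2 ≤ s * T ^ 2 :=
                    mul_le_mul hs2 (pow_le_pow_left₀ ht0.le htT 2) (by positivity) hs.le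
                _ = 1 := by rw [mul_comm]; exact hTs
            have h9 : (1 - ∑ j ∈ F, a j) * t ≤ b / Real.sqrt s := by
              calc (1 - ∑ j ∈ F, a j) * t ≤ b * t :=
                    mul_le_mul_of_nonneg_right (by linarith) ht0.le
                _ ≤ b * T := mul_le_mul_of_nonneg_left htT hb0
                _ = b / Real.sqrt s := by rw [hT]; ring
            nlinarith
        _ = Real.exp (-t) * Real.exp (∑ j ∈ F, (a j * t - (a j * t) ^ 2 / 2)) := Real.exp_add _ _
        _ ≤ _ := mul_le_mul_of_nonneg_left h5 (Real.exp_nonneg _)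
    calc K * t = t * K := mul_comm _ _
      _ ≤ t * (Real.exp (-t) * ∏ j ∈ F, (1 + a j * t)) := mul_le_mul_of_nonneg_left h6 ht0.le
      _ = _ := by ring

/-! ### Passing to the infinite color set -/

lemma pmf_coe (p : PMF C) (j : C) : p j = ((p j).toNNReal : ℝ≥0∞) :=
  (ENNReal.coe_toNNReal (p.apply_ne_top j)).symm

open scoped Classical in
lemma sum_lawY_le_one (p : PMF C) : ∑' i, lawY p i ≤ 1 := by
  set g : C → Finset C → ℝ≥0∞ := fun i J =>
    p i ^ 2 * (if i ∈ J then 0 else ((J.card + 1).factorial : ℝ≥0∞) * ∏ j ∈ J, p j) with hg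
  have h1 : ∑' i, lawY p i = ∑' x : C × Finset C, g x.1 x.2 := by
    rw [ENNReal.tsum_prod]
    refine tsum_congr fun i => ?_
    rw [ENNReal.tsum_mul_left]
    rfl
  rw [h1, ENNReal.tsum_eq_iSup_sum]
  refine iSup_le fun A => ?_
  -- a large finite set
  set F : Finset C := (A.image Prod.fst) ∪ A.biUnion (fun x => x.2) with hF
  have h2 : ∑ x ∈ A, g x.1 x.2 ≤ ∑ x ∈ F ×ˢ F.powerset, g x.1 x.2 := by
    refine Finset.sum_le_sum_of_subset ?_
    intro x hx
    rw [Finset.mem_product, Finset.mem_powerset]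
    refine ⟨Finset.mem_union_left _ (Finset.mem_image_of_mem _ hx), ?_⟩
    intro j hj
    exact Finset.mem_union_right _ (Finset.mem_biUnion.2 ⟨x, hx, hj⟩)
  refine h2.trans ?_
  rw [Finset.sum_product]
  set a : C → ℝ≥0 := fun j => (p j).toNNReal with ha
  have hpa : ∀ j, p j = (a j : ℝ≥0∞) := fun j => pmf_coe p j
  have hsum : ∑ j ∈ F, (a j : ℝ) ≤ 1 := by
    have h3 : ∑ j ∈ F, p j ≤ 1 := by
      calc ∑ j ∈ F, p j ≤ ∑' j, p j := ENNReal.sum_le_tsum F
        _ = 1 := p.tsum_coe
    simp only [hpa] at h3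
    exact_mod_cast h3
  have h4 := finite_upper F (fun j => (a j : ℝ)) (fun j => (a j).2) hsum
  have h5 : ∀ i ∈ F, ∑ J ∈ F.powerset, g i J = ((a i : ℝ≥0∞)) ^ 2 *
      ∑ J ∈ (F.erase i).powerset, ((J.card + 1).factorial : ℝ≥0∞) * ∏ j ∈ J, (a j : ℝ≥0∞) := by
    intro i hi
    have h6 : (F.erase i).powerset = F.powerset.filter (fun J => i ∉ J) := by
      ext J
      simp only [Finset.mem_powerset, Finset.mem_filter, Finset.subset_erase]
    rw [h6, Finset.sum_filter, Finset.mul_sum]
    refine Finset.sum_congr rfl fun J _ => ?_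
    simp only [hg, hpa]
    by_cases hiJ : i ∈ J
    · simp [hiJ]
    · simp [hiJ]
  rw [Finset.sum_congr rfl h5]
  exact_mod_cast h4

lemma f2_le_one (p : PMF C) : f2 p ≤ 1 := by
  calc f2 p ≤ ∑' j, p j := by
        refine ENNReal.tsum_le_tsum fun j => ?_
        rw [sq]
        calc p j * p j ≤ 1 * p j := mul_le_mul_left (p.coe_le_one j) _
          _ = p j := one_mul _
    _ = 1 := p.tsum_coe

lemma f2_ne_zero (p : PMF C) : f2 p ≠ 0 := by
  intro h
  rw [f2, ENNReal.tsum_eq_zero] at h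
  have h1 : ∀ j, p j = 0 := fun j => by
    have := h j
    exact pow_eq_zero_iff (two_ne_zero) |>.1 this
  have h2 := p.tsum_coe
  simp [h1] at h2

lemma sum_lawX (p : PMF C) : ∑' i, lawX p i = 1 := by
  have h0 := f2_ne_zero p
  have h1 : f2 p ≠ ∞ := ne_top_of_le_ne_top ENNReal.one_ne_top (f2_le_one p)
  simp only [lawX, div_eq_mul_inv]
  rw [ENNReal.tsum_mul_right]
  exact ENNReal.mul_inv_cancel h0 h1

/-- the constant -/
noncomputable def c0 : ℝ := Real.exp (-(3 / 2)) / 2

open scoped Classical in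
lemma lawY_ge (p : PMF C) (i : C) : ENNReal.ofReal c0 * lawX p i ≤ lawY p i := by
  set a : C → ℝ≥0 := fun j => (p j).toNNReal with ha
  have hpa : ∀ j, p j = (a j : ℝ≥0∞) := fun j => pmf_coe p j
  have h0 := f2_ne_zero p
  have h1 : f2 p ≠ ∞ := ne_top_of_le_ne_top ENNReal.one_ne_top (f2_le_one p)
  set s : ℝ≥0 := (f2 p).toNNReal with hs
  have hfs : f2 p = (s : ℝ≥0∞) := (ENNReal.coe_toNNReal h1).symm
  have hspos : (0 : ℝ) < s := by
    have : s ≠ 0 := by
      intro h; apply h0; rw [hfs, h]; rfl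
    exact_mod_cast pos_iff_ne_zero.2 this
  have hfin2 : ∀ F : Finset C, ∑ j ∈ F, (a j : ℝ) ^ 2 ≤ s := by
    intro F
    have h3 : ∑ j ∈ F, p j ^ 2 ≤ f2 p := ENNReal.sum_le_tsum F
    simp only [hpa, hfs] at h3
    exact_mod_cast h3
  have hfin1 : ∀ F : Finset C, ∑ j ∈ F, (a j : ℝ) ≤ 1 := by
    intro F
    have h3 : ∑ j ∈ F, p j ≤ 1 := by
      calc ∑ j ∈ F, p j ≤ ∑' j, p j := ENNReal.sum_le_tsum F
        _ = 1 := p.tsum_coe
    simp only [hpa] at h3
    exact_mod_cast h3
  have hais : (a i : ℝ) ≤ Real.sqrt s := by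
    apply Real.le_sqrt_of_sq_le
    have := hfin2 {i}
    simpa using this
  have hsq := Real.sqrt_pos.2 hspos
  -- the lower bound for finite sets
  have key : ∀ F : Finset C, ENNReal.ofReal ((a i : ℝ) ^ 2 *
      (Real.exp (-((1 - ∑ j ∈ F, (a j : ℝ)) / Real.sqrt s) - 3 / 2) / (2 * s))) ≤ lawY p i := by
    intro F
    set b : ℝ := (1 - ∑ j ∈ F, (a j : ℝ)) + a i with hb
    have hb0 : 0 ≤ b := by
      have := hfin1 F
      have := (a i).2
      simp only [hb]
      have h7 : (0 : ℝ) ≤ a i := (a i).2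
      linarith
    have hb1 : 1 ≤ b + ∑ j ∈ F.erase i, (a j : ℝ) := by
      by_cases hi : i ∈ F
      · have := Finset.add_sum_erase F (fun j => (a j : ℝ)) hi
        linarith
      · rw [Finset.erase_eq_of_notMem hi]
        have h7 : (0 : ℝ) ≤ a i := (a i).2
        linarith
    have hl := finite_lower (F.erase i) (fun j => (a j : ℝ)) (fun j => (a j).2) s
      (hfin2 _) hspos b hb1 hb0
    have hl2 : (a i : ℝ) ^ 2 *
      (Real.exp (-((1 - ∑ j ∈ F, (a j : ℝ)) / Real.sqrt s) - 3 / 2) / (2 * s)) ≤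
        (a i : ℝ) ^ 2 * ∑ J ∈ (F.erase i).powerset, ((J.card + 1).factorial : ℝ) *
          ∏ j ∈ J, (a j : ℝ) := by
      refine mul_le_mul_of_nonneg_left (le_trans ?_ hl) (sq_nonneg _)
      refine div_le_div_of_nonneg_right (Real.exp_le_exp.2 ?_) (by positivity)
      have h8 : (a i : ℝ) / Real.sqrt s ≤ 1 := (div_le_one hsq).2 hais
      have h9 : b / Real.sqrt s = (1 - ∑ j ∈ F, (a j : ℝ)) / Real.sqrt s +
          (a i : ℝ) / Real.sqrt s := by rw [hb, add_div]
      rw [h9]
      linarith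
    refine (ENNReal.ofReal_le_ofReal hl2).trans ?_
    have h10 : ENNReal.ofReal ((a i : ℝ) ^ 2 * ∑ J ∈ (F.erase i).powerset,
        ((J.card + 1).factorial : ℝ) * ∏ j ∈ J, (a j : ℝ)) =
        (a i : ℝ≥0∞) ^ 2 * ∑ J ∈ (F.erase i).powerset,
        ((J.card + 1).factorial : ℝ≥0∞) * ∏ j ∈ J, (a j : ℝ≥0∞) := by
      have : ((a i : ℝ) ^ 2 * ∑ J ∈ (F.erase i).powerset,
        ((J.card + 1).factorial : ℝ) * ∏ j ∈ J, (a j : ℝ)) =
          (((a i) ^ 2 * ∑ J ∈ (F.erase i).powerset,
        ((J.card + 1).factorial : ℝ≥0) * ∏ j ∈ J, (a j) : ℝ≥0) : ℝ) := by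
        push_cast; rfl
      rw [this, ENNReal.ofReal_coe_nnreal]
      push_cast; rfl
    rw [h10, lawY, hpa i]
    refine mul_le_mul_right ?_ _
    calc ∑ J ∈ (F.erase i).powerset, ((J.card + 1).factorial : ℝ≥0∞) * ∏ j ∈ J, (a j : ℝ≥0∞)
        = ∑ J ∈ (F.erase i).powerset, (if i ∈ J then 0 else
          ((J.card + 1).factorial : ℝ≥0∞) * ∏ j ∈ J, p j) := by
          refine Finset.sum_congr rfl fun J hJ => ?_
          have hiJ : i ∉ J := fun h => by
            have := (Finset.mem_powerset.1 hJ) h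
            simp at this
          simp [hiJ, hpa]
      _ ≤ _ := ENNReal.sum_le_tsum _
  -- the limit
  have hsumm : Summable (fun j => (a j : ℝ)) := by
    have : ∑' j, (a j : ℝ≥0∞) ≠ ∞ := by
      have h3 := p.tsum_coe
      simp only [hpa] at h3
      rw [h3]; exact ENNReal.one_ne_top
    exact_mod_cast ENNReal.tsum_coe_ne_top_iff_summable.1 this
  have htsum : ∑' j, (a j : ℝ) = 1 := by
    have h3 := p.tsum_coe
    simp only [hpa] at h3
    have h4 : Summable a := by exact_mod_cast hsumm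
    rw [← ENNReal.coe_tsum h4] at h3
    have h5 : ∑' j, a j = 1 := by exact_mod_cast h3
    rw [← NNReal.coe_tsum, h5]
    rfl
  have hlim : Filter.Tendsto (fun F : Finset C => ENNReal.ofReal ((a i : ℝ) ^ 2 *
      (Real.exp (-((1 - ∑ j ∈ F, (a j : ℝ)) / Real.sqrt s) - 3 / 2) / (2 * s)))) Filter.atTop
      (nhds (ENNReal.ofReal ((a i : ℝ) ^ 2 *
      (Real.exp (-((1 - 1) / Real.sqrt s) - 3 / 2) / (2 * s))))) := by
    have h5 : Filter.Tendsto (fun F : Finset C => ∑ j ∈ F, (a j : ℝ)) Filter.atTop (nhds 1) := by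
      rw [← htsum]; exact hsumm.hasSum
    refine ENNReal.tendsto_ofReal ?_
    refine Filter.Tendsto.const_mul _ (Filter.Tendsto.div_const ?_ _)
    refine (Real.continuous_exp.tendsto _).comp ?_
    refine Filter.Tendsto.sub_const (Filter.Tendsto.neg (Filter.Tendsto.div_const ?_ _)) _
    exact Filter.Tendsto.const_sub _ h5
  have hfinal := le_of_tendsto' hlim key
  refine le_trans (le_of_eq ?_) hfinal
  rw [lawX, hpa i, hfs]
  have h11 : ((a i : ℝ≥0∞)) ^ 2 / (s : ℝ≥0∞) = ENNReal.ofReal ((a i : ℝ) ^ 2 / s) := by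
    have hs0 : s ≠ 0 := by
      intro h; apply h0; rw [hfs, h]; rfl
    rw [ENNReal.ofReal_div_of_pos hspos, ENNReal.ofReal_coe_nnreal, ENNReal.ofReal_pow (NNReal.coe_nonneg (a i)),
      ENNReal.ofReal_coe_nnreal]
  rw [h11, ← ENNReal.ofReal_mul (by unfold c0; positivity)]
  congr 1
  unfold c0
  simp only [sub_self, zero_div, neg_zero, zero_sub]
  field_simp

lemma c0_pos : 0 < c0 := by unfold c0; positivity

lemma c0_lt_one : c0 < 1 := by
  unfold c0
  have : Real.exp (-(3 / 2)) ≤ 1 := Real.exp_le_one_iff.2 (by norm_num)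
  linarith

/-- the main inequality -/
lemma discrepancy_le (p : PMF C) : discrepancy p ≤ ENNReal.ofReal (1 - c0) := by
  have hX := sum_lawX p
  have hY := sum_lawY_le_one p
  have hmin : ∀ i, ENNReal.ofReal c0 * lawX p i ≤ min (lawX p i) (lawY p i) := by
    intro i
    refine le_min ?_ (lawY_ge p i)
    calc ENNReal.ofReal c0 * lawX p i ≤ 1 * lawX p i := by
          refine mul_le_mul_left ?_ _
          rw [← ENNReal.ofReal_one]
          exact ENNReal.ofReal_le_ofReal c0_lt_one.le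
      _ = lawX p i := one_mul _
  have hpt : ∀ i, ((lawX p i - lawY p i) + (lawY p i - lawX p i)) +
      2 * min (lawX p i) (lawY p i) = lawX p i + lawY p i := by
    intro i
    rcases le_total (lawX p i) (lawY p i) with h | h
    · rw [tsub_eq_zero_of_le h, min_eq_left h, zero_add, two_mul, ← add_assoc,
        tsub_add_cancel_of_le h, add_comm]
    · rw [tsub_eq_zero_of_le h, min_eq_right h, add_zero, two_mul, ← add_assoc,
        tsub_add_cancel_of_le h]
  have hs : (∑' i, ((lawX p i - lawY p i) + (lawY p i - lawX p i))) +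
      2 * ENNReal.ofReal c0 ≤ 2 := by
    calc (∑' i, ((lawX p i - lawY p i) + (lawY p i - lawX p i))) + 2 * ENNReal.ofReal c0
        = (∑' i, ((lawX p i - lawY p i) + (lawY p i - lawX p i))) +
          2 * ∑' i, ENNReal.ofReal c0 * lawX p i := by
          rw [ENNReal.tsum_mul_left, hX, mul_one]
      _ ≤ (∑' i, ((lawX p i - lawY p i) + (lawY p i - lawX p i))) +
          2 * ∑' i, min (lawX p i) (lawY p i) := by
          gcongr with i
          exact hmin i
      _ = ∑' i, (lawX p i + lawY p i) := by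
          rw [← ENNReal.tsum_mul_left, ← ENNReal.tsum_add]
          exact tsum_congr hpt
      _ = (∑' i, lawX p i) + ∑' i, lawY p i := ENNReal.tsum_add
      _ ≤ 1 + 1 := add_le_add hX.le hY
      _ = 2 := one_add_one_eq_two
  unfold discrepancy
  rw [ENNReal.div_le_iff (by norm_num) (by norm_num)]
  have h2 : (2 : ℝ≥0∞) * ENNReal.ofReal c0 ≠ ∞ := ENNReal.mul_ne_top (by norm_num)
    ENNReal.ofReal_ne_top
  have h3 : (∑' i, ((lawX p i - lawY p i) + (lawY p i - lawX p i))) ≤
      2 - 2 * ENNReal.ofReal c0 := ENNReal.le_sub_of_add_le_right h2 hs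
  refine h3.trans (le_of_eq ?_)
  have h4 : (2 : ℝ≥0∞) = ENNReal.ofReal 2 := by norm_num
  rw [h4, ← ENNReal.ofReal_mul (by norm_num), ← ENNReal.ofReal_sub _ (by
    have := c0_pos; positivity), ← ENNReal.ofReal_mul (by linarith [c0_lt_one])]
  congr 1
  ring

end Q296.Match
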